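import Mathlib

/-!
# Pfister forms over finite extensions of small degree
-/

open Module

namespace Pool.Agent.Results.MP_420cd4_al.PfisterDegree

universe u v w

/-- The quadratic form `∑ A i j * X i * X j` in `n` variables. -/
def qf {R : Type*} [CommRing R] {n : ℕ} (A : Fin n → Fin n → R) (v : Fin n → R) : R :=
  ∑ i, ∑ j, A i j * v i * v j

/-- The value at `v` of the form `⟨⟨x_1, …, x_k⟩⟩ ⊗ A`, where `⟨⟨x_1, …, x_k⟩⟩` is the `k`-fold
Pfister form `⟨1, x_1⟩ ⊗ ⋯ ⊗ ⟨1, x_k⟩`. -/
def pf {R : Type*} [CommRing R] {n k : ℕ} (x : Fin k → R) (A : Fin n → Fin n → R)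
    (v : (Fin k → Bool) → Fin n → R) : R :=
  ∑ b : Fin k → Bool, (∏ i, if b i then x i else 1) * qf A (v b)

section abstract_part

variable {K : Type u} {L : Type v} [Field K] [Field L] [Algebra K L]

/-- The structure built in the induction. -/
def Good (K : Type u) {L : Type v} [Field K] [Field L] [Algebra K L] {W : Type w}
    [AddCommGroup W] [Module L W] [Module K W] (Q : QuadraticForm L W) (m : ℕ) : Prop :=
  ∃ (N : Type u) (_ : AddCommGroup N) (_ : Module K N) (J : Type) (_ : Fintype J)
    (Φ : N → J → K) (β : N → N → J → K) (ι : N →ₗ[K] W) (μ : J → L),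
    Fintype.card J = m ∧ (∀ n, Q (ι n) = ∑ j, algebraMap K L (Φ n j) * μ j) ∧
    (∀ n n', QuadraticMap.polar Q (ι n) (ι n') = ∑ j, algebraMap K L (β n n' j) * μ j) ∧
    Function.Surjective Φ ∧ Function.Injective ι ∧ Φ 0 = 0 ∧ β 0 0 = 0

lemma step (h2 : (2 : K) ≠ 0) {W : Type w} [AddCommGroup W] [Module L W] [Module K W]
    [IsScalarTower K L W] (Q : QuadraticForm L W) (m : ℕ) (hQ : Good K Q m) (x : L)
    (han : ∀ v w : W, Q v + x * Q w = 0 → v = 0 ∧ w = 0) :
    Good K (Q.prod (x • Q)) (3 * m) := by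
  obtain ⟨N, _, _, J, _, Φ, β, ι, μ, hJ, hΦ, hβ, hsurj, hinj, hΦ0, hβ0⟩ := hQ
  have hval : ∀ n0 n1 : N, Q (ι n0 + x • ι n1) = ∑ j, algebraMap K L (Φ n0 j) * μ j +
      ∑ j, algebraMap K L (β n0 n1 j) * (x * μ j) +
      ∑ j, algebraMap K L (Φ n1 j) * (x * x * μ j) := by
    intro n0 n1
    rw [QuadraticMap.map_add (⇑Q), QuadraticMap.map_smul, QuadraticMap.polar_smul_right, hΦ, hΦ, hβ,
      smul_eq_mul, smul_eq_mul, Finset.mul_sum, Finset.mul_sum]
    have e1 : ∀ j, x * (algebraMap K L (β n0 n1 j) * μ j) =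
        algebraMap K L (β n0 n1 j) * (x * μ j) := fun j => by ring
    have e2 : ∀ j, x * x * (algebraMap K L (Φ n1 j) * μ j) =
        algebraMap K L (Φ n1 j) * (x * x * μ j) := fun j => by ring
    simp only [e1, e2]
    ring
  let ι' : (N × N) × N →ₗ[K] W × W :=
    ((ι.comp (LinearMap.fst K N N) +
      ((LinearMap.lsmul L W x).restrictScalars K).comp (ι.comp (LinearMap.snd K N N))).prodMap ι)
  have hι' : ∀ n0 n1 m, ι' ((n0, n1), m) = (ι n0 + x • ι n1, ι m) := fun _ _ _ => rfl
  let Φ' : (N × N) × N → (J ⊕ J ⊕ J) → K := fun p =>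
    Sum.elim (Φ p.1.1) (Sum.elim (fun j => β p.1.1 p.1.2 j + Φ p.2 j) (Φ p.1.2))
  let β' : (N × N) × N → (N × N) × N → (J ⊕ J ⊕ J) → K := fun p p' =>
    Sum.elim (β p.1.1 p'.1.1) (Sum.elim
      (fun j => β p.1.1 p'.1.2 j + β p'.1.1 p.1.2 j + β p.2 p'.2 j) (β p.1.2 p'.1.2))
  let μ' : (J ⊕ J ⊕ J) → L := Sum.elim μ (Sum.elim (fun j => x * μ j) (fun j => x * x * μ j))
  refine ⟨(N × N) × N, inferInstance, inferInstance, J ⊕ J ⊕ J, inferInstance, Φ', β', ι', μ',
    ?_, ?_, ?_, ?_, ?_, ?_, ?_⟩
  · simp only [Fintype.card_sum, hJ]; ring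
  · rintro ⟨⟨n0, n1⟩, m⟩
    rw [hι', QuadraticMap.prod_apply, hval, QuadraticMap.smul_apply, hΦ, smul_eq_mul,
      Fintype.sum_sum_type, Fintype.sum_sum_type]
    simp only [Φ', μ', Sum.elim_inl, Sum.elim_inr, map_add, add_mul, Finset.sum_add_distrib,
      Finset.mul_sum]
    have e1 : ∀ j, x * (algebraMap K L (Φ m j) * μ j) =
        algebraMap K L (Φ m j) * (x * μ j) := fun j => by ring
    simp only [e1]
    ring
  · rintro ⟨⟨n0, n1⟩, m⟩ ⟨⟨n0', n1'⟩, m'⟩
    have hp : QuadraticMap.polar (Q.prod (x • Q)) (ι n0 + x • ι n1, ι m)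
        (ι n0' + x • ι n1', ι m') = QuadraticMap.polar Q (ι n0) (ι n0') +
        (x * QuadraticMap.polar Q (ι n0) (ι n1') + x * QuadraticMap.polar Q (ι n0') (ι n1) +
          x * QuadraticMap.polar Q (ι m) (ι m')) +
        x * x * QuadraticMap.polar Q (ι n1) (ι n1') := by
      rw [QuadraticMap.polar_prod, QuadraticMap.coeFn_smul, QuadraticMap.polar_smul,
        QuadraticMap.polar_add_left, QuadraticMap.polar_add_right, QuadraticMap.polar_add_right,
        QuadraticMap.polar_smul_left, QuadraticMap.polar_smul_left,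
        QuadraticMap.polar_smul_right, QuadraticMap.polar_smul_right,
        QuadraticMap.polar_comm (⇑Q) (ι n1) (ι n0')]
      simp only [smul_eq_mul]
      ring
    rw [hι', hι', hp, hβ, hβ, hβ, hβ, hβ, Fintype.sum_sum_type, Fintype.sum_sum_type,
      Finset.mul_sum, Finset.mul_sum, Finset.mul_sum, Finset.mul_sum, ← Finset.sum_add_distrib,
      ← Finset.sum_add_distrib]
    have e1 : ∀ j, x * (algebraMap K L (β n0 n1' j) * μ j) +
        x * (algebraMap K L (β n0' n1 j) * μ j) + x * (algebraMap K L (β m m' j) * μ j) =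
        algebraMap K L (β n0 n1' j + β n0' n1 j + β m m' j) * (x * μ j) := fun j => by
      rw [map_add, map_add]; ring
    have e2 : ∀ j, x * x * (algebraMap K L (β n1 n1' j) * μ j) =
        algebraMap K L (β n1 n1' j) * (x * x * μ j) := fun j => by ring
    simp only [Φ', β', μ', Sum.elim_inl, Sum.elim_inr, e1, e2]
    ring
  · intro c
    obtain ⟨n0, h0⟩ := hsurj (fun j => c (Sum.inl j))
    obtain ⟨n1, h1⟩ := hsurj (fun j => c (Sum.inr (Sum.inr j)))
    obtain ⟨m, hm⟩ := hsurj (fun j => c (Sum.inr (Sum.inl j)) - β n0 n1 j)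
    refine ⟨((n0, n1), m), ?_⟩
    funext j
    rcases j with j | j | j
    · simp [Φ', h0]
    · simp [Φ', hm]
    · simp [Φ', h1]
  · rw [injective_iff_map_eq_zero]
    rintro ⟨⟨n0, n1⟩, m⟩ h
    rw [hι'] at h
    have hA : ι n0 + x • ι n1 = 0 := congrArg Prod.fst h
    have hB : ι m = 0 := congrArg Prod.snd h
    have hm0 : m = 0 := hinj (by rw [hB, map_zero])
    have hn1 : ι n1 = 0 := by
      obtain ⟨m', hm'⟩ := hsurj (fun j => (2 : K)⁻¹ * β n0 n1 j)
      have h3 : Q (ι m') = -(x * Q (ι n1)) := by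
        have h4 : Q (ι m') = algebraMap K L (2 : K)⁻¹ * QuadraticMap.polar Q (ι n0) (ι n1) := by
          rw [hΦ, hm', hβ, Finset.mul_sum]
          refine Finset.sum_congr rfl fun j _ => ?_
          rw [map_mul]; ring
        have h5 : ι n0 = (-x) • ι n1 := by
          rw [neg_smul]; exact eq_neg_of_add_eq_zero_left hA
        rw [h4, h5, QuadraticMap.polar_smul_left, QuadraticMap.polar_self, smul_eq_mul, two_nsmul]
        have h6 : algebraMap K L (2 : K)⁻¹ * 2 = 1 := by
          rw [map_inv₀, map_ofNat]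
          exact inv_mul_cancel₀ (by
            intro h7
            apply h2
            have : algebraMap K L 2 = 0 := by rw [map_ofNat]; exact h7
            simpa using this)
        linear_combination (-x * Q (ι n1)) * h6
      exact (han (ι m') (ι n1) (by rw [h3]; ring)).2
    have hn1' : n1 = 0 := hinj (by rw [hn1, map_zero])
    have hn0 : n0 = 0 := by
      apply hinj
      rw [hn1, smul_zero, add_zero] at hA
      rw [hA, map_zero]
    rw [hm0, hn1', hn0]
    rfl
  · funext j
    rcases j with j | j | j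
    · simp [Φ', hΦ0]
    · simp [Φ', hΦ0, hβ0]
    · simp [Φ', hΦ0]
  · funext j
    rcases j with j | j | j
    · simp [β', hβ0]
    · simp [β', hβ0]
    · simp [β', hβ0]

lemma good_le [FiniteDimensional K L] {W : Type w} [AddCommGroup W] [Module L W] [Module K W]
    [IsScalarTower K L W] (Q : QuadraticForm L W) (m : ℕ) (hQ : Good K Q m)
    (han : ∀ v : W, Q v = 0 → v = 0) : m ≤ finrank K L := by
  classical
  obtain ⟨N, _, _, J, _, Φ, β, ι, μ, hJ, hΦ, hβ, hsurj, hinj, hΦ0, hβ0⟩ := hQ
  have hli : LinearIndependent K μ := by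
    rw [Fintype.linearIndependent_iff]
    intro g hg
    obtain ⟨n, hn⟩ := hsurj g
    have h1 : Q (ι n) = 0 := by
      rw [hΦ, hn, ← hg]
      exact Finset.sum_congr rfl fun j _ => (Algebra.smul_def _ _).symm
    have h2 : n = 0 := hinj (by rw [han _ h1, map_zero])
    rw [h2, hΦ0] at hn
    intro i
    rw [← hn]; rfl
  rw [← hJ]
  exact hli.fintype_card_le_finrank

/-- transport along a linear equivalence -/
lemma good_equiv {W W' : Type w} [AddCommGroup W] [Module L W] [Module K W] [IsScalarTower K L W]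
    [AddCommGroup W'] [Module L W'] [Module K W'] [IsScalarTower K L W'] (Q : QuadraticForm L W)
    (e : W' ≃ₗ[L] W) (m : ℕ) (hQ : Good K Q m) : Good K (Q.comp (e : W' →ₗ[L] W)) m := by
  obtain ⟨N, i1, i2, J, i3, Φ, β, ι, μ, hJ, hΦ, hβ, hsurj, hinj, hΦ0, hβ0⟩ := hQ
  refine ⟨N, i1, i2, J, i3, Φ, β, ((e.symm : W →ₗ[L] W').restrictScalars K).comp ι, μ, hJ, ?_, ?_,
    hsurj, ?_, hΦ0, hβ0⟩
  · intro n
    simp [hΦ]
  · intro n n'
    rw [← hβ]
    simp [QuadraticMap.polar]
  · intro a b hab
    apply hinj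
    simpa using hab

end abstract_part

/-! ### The forms -/

section forms

variable {K : Type u} {L : Type v} [Field K] [Field L] [Algebra K L]

/-- the quadratic form `qf A` as a `QuadraticForm` -/
noncomputable def Qf {n : ℕ} (A : Fin n → Fin n → L) : QuadraticForm L (Fin n → L) :=
  ∑ i, ∑ j, A i j • QuadraticMap.linMulLin (LinearMap.proj i) (LinearMap.proj j)

lemma Qf_apply {n : ℕ} (A : Fin n → Fin n → L) (v : Fin n → L) : Qf A v = qf A v := by
  unfold Qf qf
  rw [QuadraticMap.sum_apply]
  refine Finset.sum_congr rfl fun i _ => ?_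
  rw [QuadraticMap.sum_apply]
  refine Finset.sum_congr rfl fun j _ => ?_
  simp [mul_assoc]

/-- the form `pf x A` as a `QuadraticForm` -/
noncomputable def Pf {n k : ℕ} (x : Fin k → L) (A : Fin n → Fin n → L) :
    QuadraticForm L ((Fin k → Bool) → Fin n → L) :=
  ∑ b : Fin k → Bool, (∏ i, if b i then x i else 1) • (Qf A).comp (LinearMap.proj b)

lemma Pf_apply {n k : ℕ} (x : Fin k → L) (A : Fin n → Fin n → L)
    (v : (Fin k → Bool) → Fin n → L) : Pf x A v = pf x A v := by
  unfold Pf pf
  rw [QuadraticMap.sum_apply]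
  refine Finset.sum_congr rfl fun b _ => ?_
  simp [Qf_apply]

/-- `(Fin (k+1) → Bool) → V` is a product -/
def splitEquiv (V : Type v) [AddCommGroup V] [Module L V] (k : ℕ) :
    ((Fin (k + 1) → Bool) → V) ≃ₗ[L] ((Fin k → Bool) → V) × ((Fin k → Bool) → V) where
  toFun v := (fun b => v (Fin.cons false b), fun b => v (Fin.cons true b))
  invFun w := fun b => if b 0 then w.2 (Fin.tail b) else w.1 (Fin.tail b)
  map_add' v w := rfl
  map_smul' c v := rfl
  left_inv v := by
    funext b
    by_cases h : b 0 = true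
    · simp only [h, if_true]
      congr 1
      rw [← h]
      exact Fin.cons_self_tail b
    · have h' : b 0 = false := by simpa using h
      simp only [h', Bool.false_eq_true, if_false]
      congr 1
      rw [← h']
      exact Fin.cons_self_tail b
  right_inv w := by
    ext b <;> simp

lemma Pf_succ {n k : ℕ} (x : Fin (k + 1) → L) (A : Fin n → Fin n → L) :
    Pf x A = ((Pf (fun i => x i.succ) A).prod (x 0 • Pf (fun i => x i.succ) A)).comp
      (splitEquiv (L := L) (Fin n → L) k).toLinearMap := by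
  ext v
  rw [Pf_apply]
  simp only [QuadraticMap.comp_apply, QuadraticMap.prod_apply, QuadraticMap.smul_apply, Pf_apply,
    LinearEquiv.coe_toLinearMap]
  unfold pf
  rw [← (Fin.consEquiv (fun _ : Fin (k + 1) => Bool)).sum_comp, Fintype.sum_prod_type]
  simp only [Fintype.univ_bool, Finset.mem_singleton, Bool.true_eq_false, not_false_eq_true,
    Finset.sum_insert, Finset.sum_singleton, Fin.consEquiv_apply, Fin.prod_univ_succ, Fin.cons_zero,
    Fin.cons_succ, if_true, Bool.false_eq_true, if_false, one_mul, smul_eq_mul, Finset.mul_sum,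
    splitEquiv, LinearEquiv.coe_mk, LinearMap.coe_mk, AddHom.coe_mk]
  rw [add_comm]
  congr 1
  exact Finset.sum_congr rfl fun b _ => mul_assoc _ _ _

/-- the base of the induction: a universal form over `K` -/
lemma good_zero {n : ℕ} (A : Fin n → Fin n → K) (hA : ∀ c : K, ∃ v, qf A v = c) :
    Good K (Qf fun i j => algebraMap K L (A i j)) 1 := by
  let ι : (Fin n → K) →ₗ[K] (Fin n → L) := (Algebra.linearMap K L).compLeft (Fin n)
  have hι : ∀ v i, ι v i = algebraMap K L (v i) := fun _ _ => rfl
  have hval : ∀ v, Qf (fun i j => algebraMap K L (A i j)) (ι v) = algebraMap K L (qf A v) := by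
    intro v
    rw [Qf_apply]
    unfold qf
    simp only [hι, map_sum, map_mul]
  refine ⟨Fin n → K, inferInstance, inferInstance, Unit, inferInstance, fun v _ => qf A v,
    fun v w _ => qf A (v + w) - qf A v - qf A w, ι, fun _ => 1, rfl, ?_, ?_, ?_, ?_, ?_, ?_⟩
  · intro v
    rw [hval]; simp
  · intro v w
    unfold QuadraticMap.polar
    rw [← map_add, hval, hval, hval]; simp
  · intro c
    obtain ⟨v, hv⟩ := hA (c ())
    exact ⟨v, funext fun _ => hv⟩
  · intro v w h
    funext i
    have := congrFun h i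
    rw [hι, hι] at this
    exact (algebraMap K L).injective this
  · funext _
    simp [qf]
  · funext _
    simp [qf]

/-- the form for `k = 0` is `A` -/
def zeroEquiv (V : Type v) [AddCommGroup V] [Module L V] : ((Fin 0 → Bool) → V) ≃ₗ[L] V :=
  LinearEquiv.funUnique (Fin 0 → Bool) L V

lemma good_pf (h2 : (2 : K) ≠ 0) {n : ℕ} (A : Fin n → Fin n → K)
    (hA : ∀ c : K, ∃ v, qf A v = c) : ∀ (k : ℕ) (x : Fin k → L),
    (∀ v, pf x (fun i j => algebraMap K L (A i j)) v = 0 → v = 0) →
    Good K (Pf x fun i j => algebraMap K L (A i j)) (3 ^ k) := by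
  intro k
  induction k with
  | zero =>
    intro x _
    have h := good_equiv (K := K) _ (zeroEquiv (L := L) (Fin n → L)) 1 (good_zero A hA)
    have e : Pf x (fun i j => algebraMap K L (A i j)) =
        (Qf fun i j => algebraMap K L (A i j)).comp
          (zeroEquiv (L := L) (Fin n → L) : ((Fin 0 → Bool) → Fin n → L) →ₗ[L] (Fin n → L)) := by
      ext v
      rw [Pf_apply]
      unfold pf
      rw [Fintype.sum_unique]
      simp [Qf_apply, zeroEquiv]
    rw [e, pow_zero]
    exact h
  | succ k ih =>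
    intro x han
    rw [Pf_succ]
    have han' : ∀ v w, Pf (fun i => x i.succ) (fun i j => algebraMap K L (A i j)) v +
        x 0 * Pf (fun i => x i.succ) (fun i j => algebraMap K L (A i j)) w = 0 → v = 0 ∧ w = 0 := by
      intro v w h
      have h3 : pf x (fun i j => algebraMap K L (A i j))
          ((splitEquiv (L := L) (Fin n → L) k).symm (v, w)) = 0 := by
        rw [← Pf_apply, Pf_succ]
        simp [h]
      have h4 := han _ h3
      have h5 : (v, w) = 0 := by
        rw [← (splitEquiv (L := L) (Fin n → L) k).apply_symm_apply (v, w), h4, map_zero]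
      exact ⟨congrArg Prod.fst h5, congrArg Prod.snd h5⟩
    have h6 := ih (fun i => x i.succ) (fun v hv => (han' v 0 (by
      rw [Pf_apply, hv, QuadraticMap.map_zero, mul_zero, add_zero])).1)
    have h7 := step h2 _ _ h6 (x 0) han'
    have h8 := good_equiv (K := K) _ (splitEquiv (L := L) (Fin n → L) k) _ h7
    rw [pow_succ, mul_comm]
    exact h8

/-- **Main theorem.** -/
theorem main (h2 : (2 : K) ≠ 0) [FiniteDimensional K L] {n : ℕ} (A : Fin n → Fin n → K)
    (hA : ∀ c : K, ∃ v, qf A v = c) (k : ℕ) (x : Fin k → L) (hk : finrank K L < 3 ^ k) :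
    ∃ v, v ≠ 0 ∧ pf x (fun i j => algebraMap K L (A i j)) v = 0 := by
  by_contra hcon
  push Not at hcon
  have han : ∀ v, pf x (fun i j => algebraMap K L (A i j)) v = 0 → v = 0 := by
    intro v hv
    by_contra h0
    exact hcon v h0 hv
  have := good_le _ _ (good_pf h2 A hA k x han) (fun v hv => han v (by rw [← Pf_apply]; exact hv))
  omega

end forms

/-! ### The `u`-invariant -/

/-- The `u`-invariant: the supremum of the dimensions of anisotropic quadratic forms. -/
noncomputable def uInv (F : Type*) [Field F] : ℕ∞ :=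
  ⨆ n ∈ {n : ℕ | ∃ q : QuadraticForm F (Fin n → F), ∀ v, q v = 0 → v = 0}, (n : ℕ∞)

lemma le_uInv {F : Type*} [Field F] {n : ℕ} (q : QuadraticForm F (Fin n → F))
    (hq : ∀ v, q v = 0 → v = 0) : (n : ℕ∞) ≤ uInv F :=
  le_iSup₂_of_le n ⟨q, hq⟩ le_rfl

/-- An anisotropic form in `u(F)` variables is universal. -/
lemma universal {F : Type*} [Field F] {n : ℕ} (hu : uInv F = n) (A : Fin n → Fin n → F)
    (hA : ∀ v, qf A v = 0 → v = 0) (c : F) : ∃ v, qf A v = c := by
  classical
  by_contra hcon
  push Not at hcon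
  let B : Fin (n + 1) → Fin (n + 1) → F :=
    Fin.snoc (fun i => Fin.snoc (A i) 0) (Fin.snoc (fun _ => 0) (-c))
  have hB : ∀ v, qf B v = qf A (fun i => v i.castSucc) - c * (v (Fin.last n) * v (Fin.last n)) := by
    intro v
    unfold qf
    rw [Fin.sum_univ_castSucc]
    simp only [Fin.sum_univ_castSucc, B, Fin.snoc_castSucc, Fin.snoc_last, zero_mul, add_zero,
      Finset.sum_const_zero, zero_add]
    ring
  have hani : ∀ v, Qf B v = 0 → v = 0 := by
    intro v hv
    rw [Qf_apply, hB] at hv
    have hl : v (Fin.last n) = 0 := by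
      by_contra h0
      apply hcon (fun i => (v (Fin.last n))⁻¹ * v i.castSucc)
      have h1 : qf A (fun i => (v (Fin.last n))⁻¹ * v i.castSucc) =
          (v (Fin.last n))⁻¹ * (v (Fin.last n))⁻¹ * qf A (fun i => v i.castSucc) := by
        unfold qf
        rw [Finset.mul_sum]
        refine Finset.sum_congr rfl fun i _ => ?_
        rw [Finset.mul_sum]
        refine Finset.sum_congr rfl fun j _ => ?_
        ring
      rw [h1, sub_eq_zero.1 hv]
      field_simp
    rw [hl, mul_zero, mul_zero, sub_zero] at hv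
    have h3 := hA _ hv
    funext i
    refine Fin.lastCases hl (fun j => congrFun h3 j) i
  have := le_uInv _ hani
  rw [hu] at this
  have h4 : n + 1 ≤ n := by exact_mod_cast this
  omega

lemma sq_surj {F : Type*} [Field F] (hu : uInv F = 1) (c : F) : ∃ s, s * s = c := by
  have h := universal (n := 1) (by rw [hu]; rfl) (fun _ _ : Fin 1 => (1 : F)) (by
    intro v hv
    have h1 : v 0 * v 0 = 0 := by simpa [qf] using hv
    funext i
    rw [Subsingleton.elim i 0]
    exact mul_self_eq_zero.1 h1) c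
  obtain ⟨v, hv⟩ := h
  exact ⟨v 0, by simpa [qf] using hv⟩

/-- three nonzero pairwise orthogonal vectors -/
lemma three {L V : Type*} [Field L] [AddCommGroup V] [Module L V] [FiniteDimensional L V]
    (Q : QuadraticForm L V) (h2 : (2 : L) ≠ 0) (hn : 3 ≤ finrank L V)
    (hQ : ∀ a b : L, ∃ s t r : L, (s ≠ 0 ∨ t ≠ 0 ∨ r ≠ 0) ∧ s * s + a * (t * t) + b * (r * r) = 0)
    (han : ∀ v, Q v = 0 → v = 0) : False := by
  have hpos : 0 < finrank L V := by omega
  have := Module.finrank_pos_iff.1 hpos
  obtain ⟨e, he⟩ := exists_ne (0 : V)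
  obtain ⟨f, hf, hef⟩ : ∃ f : V, f ≠ 0 ∧ QuadraticMap.polar Q e f = 0 := by
    have h1 := LinearMap.finrank_range_add_finrank_ker (Q.polarBilin e)
    have h3 : finrank L (LinearMap.range (Q.polarBilin e)) ≤ 1 := by
      have := Submodule.finrank_le (LinearMap.range (Q.polarBilin e))
      simpa using this
    have h4 : 0 < finrank L (LinearMap.ker (Q.polarBilin e)) := by omega
    have := Module.finrank_pos_iff.1 h4
    obtain ⟨f, hf⟩ := exists_ne (0 : LinearMap.ker (Q.polarBilin e))
    have hf2 : Q.polarBilin e f = 0 := LinearMap.mem_ker.1 f.2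
    exact ⟨f, by simpa using hf, hf2⟩
  obtain ⟨g, hg, heg, hfg⟩ : ∃ g : V, g ≠ 0 ∧ QuadraticMap.polar Q e g = 0 ∧
      QuadraticMap.polar Q f g = 0 := by
    let T := (Q.polarBilin e).prod (Q.polarBilin f)
    have h1 := LinearMap.finrank_range_add_finrank_ker T
    have h3 : finrank L (LinearMap.range T) ≤ 2 := by
      have := Submodule.finrank_le (LinearMap.range T)
      simpa using this
    have h4 : 0 < finrank L (LinearMap.ker T) := by omega
    have := Module.finrank_pos_iff.1 h4
    obtain ⟨g, hg⟩ := exists_ne (0 : LinearMap.ker T)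
    have hg2 : T g = 0 := LinearMap.mem_ker.1 g.2
    exact ⟨g, by simpa using hg, (Prod.mk.inj hg2).1, (Prod.mk.inj hg2).2⟩
  have hc : Q e ≠ 0 := fun h0 => he (han e h0)
  have hf' : Q f ≠ 0 := fun h0 => hf (han f h0)
  have hg' : Q g ≠ 0 := fun h0 => hg (han g h0)
  obtain ⟨s, t, r, hstr, hz⟩ := hQ (Q f / Q e) (Q g / Q e)
  have hval : Q (s • e + t • f + r • g) = 0 := by
    rw [QuadraticMap.map_add (⇑Q), QuadraticMap.map_add (⇑Q), QuadraticMap.map_smul,
      QuadraticMap.map_smul, QuadraticMap.map_smul, QuadraticMap.polar_smul_left,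
      QuadraticMap.polar_smul_right, QuadraticMap.polar_add_left, QuadraticMap.polar_smul_left,
      QuadraticMap.polar_smul_left, QuadraticMap.polar_smul_right, QuadraticMap.polar_smul_right,
      hef, heg, hfg]
    simp only [smul_eq_mul, mul_zero, add_zero]
    field_simp at hz
    linear_combination hz
  have h0 := han _ hval
  have hfe : QuadraticMap.polar Q f e = 0 := by rw [QuadraticMap.polar_comm]; exact hef
  have hge : QuadraticMap.polar Q g e = 0 := by rw [QuadraticMap.polar_comm]; exact heg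
  have hgf : QuadraticMap.polar Q g f = 0 := by rw [QuadraticMap.polar_comm]; exact hfg
  have hself : ∀ v, QuadraticMap.polar Q v v = 2 * Q v := by
    intro v; rw [QuadraticMap.polar_self]; simp
  rcases hstr with h | h | h
  · have h5 := congrArg (fun v => QuadraticMap.polar Q e v) h0
    have h6 : s * (2 * Q e) = 0 := by
      simpa [QuadraticMap.polar_add_right, QuadraticMap.polar_smul_right, hself, hef, heg] using h5
    exact mul_ne_zero h (mul_ne_zero h2 hc) h6
  · have h5 := congrArg (fun v => QuadraticMap.polar Q f v) h0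
    have h6 : t * (2 * Q f) = 0 := by
      simpa [QuadraticMap.polar_add_right, QuadraticMap.polar_smul_right, hself, hfe, hfg] using h5
    exact mul_ne_zero h (mul_ne_zero h2 hf') h6
  · have h5 := congrArg (fun v => QuadraticMap.polar Q g v) h0
    have h6 : r * (2 * Q g) = 0 := by
      simpa [QuadraticMap.polar_add_right, QuadraticMap.polar_smul_right, hself, hge, hgf] using h5
    exact mul_ne_zero h (mul_ne_zero h2 hg') h6

lemma sum_four {M : Type*} [AddCommMonoid M] (F : (Fin 2 → Bool) → M) :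
    ∑ b, F b = F ![false, false] + F ![false, true] + (F ![true, false] + F ![true, true]) := by
  rw [← (finTwoArrowEquiv Bool).symm.sum_comp, Fintype.sum_prod_type]
  simp only [Fintype.univ_bool, Finset.mem_singleton, Bool.true_eq_false, not_false_eq_true,
    Finset.sum_insert, Finset.sum_singleton, finTwoArrowEquiv_symm_apply]
  abel

/-- ternary forms from two-fold Pfister forms -/
lemma ternary {L : Type*} [Field L] (h2 : (2 : L) ≠ 0)
    (hP : ∀ x : Fin 2 → L, ∃ v, v ≠ 0 ∧ pf x (fun _ _ : Fin 1 => (1 : L)) v = 0) (a b : L) :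
    ∃ s t r : L, (s ≠ 0 ∨ t ≠ 0 ∨ r ≠ 0) ∧ s * s + a * (t * t) + b * (r * r) = 0 := by
  obtain ⟨v, hv, hz⟩ := hP ![a, b]
  unfold pf at hz
  rw [sum_four] at hz
  simp only [Fin.prod_univ_two, qf, Fin.sum_univ_one, Matrix.cons_val_zero, Matrix.cons_val_one,
    Bool.false_eq_true, if_false, if_true, mul_one, one_mul] at hz
  set p := v ![false, false] 0
  set q := v ![true, false] 0
  set r := v ![false, true] 0
  set t := v ![true, true] 0
  have hz' : p * p + a * (q * q) + b * (r * r + a * (t * t)) = 0 := by linear_combination hz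
  by_cases hN : r * r + a * (t * t) = 0
  · by_cases hrt : r = 0 ∧ t = 0
    · refine ⟨p, q, 0, ?_, ?_⟩
      · by_contra hcon
        push Not at hcon
        apply hv
        funext b i
        rw [Subsingleton.elim i 0]
        have hb : b = ![b 0, b 1] := by
          funext j; fin_cases j <;> rfl
        rw [hb]
        rcases h0 : b 0 with _ | _ <;> rcases h1 : b 1 with _ | _
        · exact hcon.1
        · exact hrt.1
        · exact hcon.2.1
        · exact hrt.2
      · rw [hN] at hz'
        linear_combination hz'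
    · refine ⟨r, t, 0, ?_, by linear_combination hN⟩
      by_contra hcon
      push Not at hcon
      exact hrt ⟨hcon.1, hcon.2.1⟩
  · refine ⟨p * r - a * q * t, p * t + q * r, r * r + a * (t * t), Or.inr (Or.inr hN), ?_⟩
    linear_combination (r * r + a * (t * t)) * hz'

/-- **Pfister forms over extensions of small degree.**  `F'/F` is a finite extension of fields of
characteristic not two.
(1) If `A` is a universal form over `F` and `[F' : F] < 3 ^ k`, then
`⟨⟨x_1, …, x_k⟩⟩ ⊗ A` is isotropic over `F'` for all `x_1, …, x_k` in `F'`.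
(2) In particular this holds for every anisotropic form `A` over `F` in `u(F)` variables.
(3) If `u(F) = 1` and `[F' : F] < 3 ^ k`, then every `k`-fold Pfister form over `F'` is isotropic.
(4) If `u(F) = 1` and `[F' : F] ≤ 8`, then `u(F') ≤ 2 u(F)`. -/
theorem result {F : Type u} {F' : Type v} [Field F] [Field F'] [Algebra F F']
    [FiniteDimensional F F'] (h2 : (2 : F) ≠ 0) :
    (∀ (k n : ℕ) (A : Fin n → Fin n → F) (x : Fin k → F'), finrank F F' < 3 ^ k →
      (∀ c : F, ∃ v, qf A v = c) →
      ∃ v, v ≠ 0 ∧ pf x (fun i j => algebraMap F F' (A i j)) v = 0) ∧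
    (∀ (k n : ℕ) (A : Fin n → Fin n → F) (x : Fin k → F'), finrank F F' < 3 ^ k →
      uInv F = n → (∀ v, qf A v = 0 → v = 0) →
      ∃ v, v ≠ 0 ∧ pf x (fun i j => algebraMap F F' (A i j)) v = 0) ∧
    (∀ (k : ℕ) (x : Fin k → F'), finrank F F' < 3 ^ k → uInv F = 1 →
      ∃ v, v ≠ 0 ∧ pf x (fun _ _ : Fin 1 => (1 : F')) v = 0) ∧
    (uInv F = 1 → finrank F F' ≤ 8 → uInv F' ≤ 2 * uInv F) := by
  have h3 : ∀ (k : ℕ) (x : Fin k → F'), finrank F F' < 3 ^ k → uInv F = 1 →
      ∃ v, v ≠ 0 ∧ pf x (fun _ _ : Fin 1 => (1 : F')) v = 0 := by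
    intro k x hk hu
    have := main (K := F) h2 (fun _ _ : Fin 1 => (1 : F)) (by
      intro c
      obtain ⟨s, hs⟩ := sq_surj hu c
      exact ⟨fun _ => s, by simpa [qf] using hs⟩) k x hk
    simpa using this
  refine ⟨fun k n A x hk hA => main h2 A hA k x hk,
    fun k n A x hk hu hA => main h2 A (universal hu A hA) k x hk, h3, ?_⟩
  intro hu hd
  have h2' : (2 : F') ≠ 0 := by
    intro h
    apply h2
    have : algebraMap F F' 2 = 0 := by rw [map_ofNat]; exact h
    simpa using this
  rw [hu, mul_one]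
  unfold uInv
  refine iSup₂_le fun n hn => ?_
  obtain ⟨q, hq⟩ := hn
  have h5 : n ≤ 2 := by
    by_contra hcon
    exact three q h2' (by simp; omega) (ternary h2' fun x => h3 2 x (by omega) hu) hq
  exact_mod_cast h5

end Pool.Agent.Results.MP_420cd4_al.PfisterDegree
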